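import Pool.Agent.Helper39.BL.KP
import Pool.Agent.Helper29.BL.GoalsF

/-!
Project BL, second round, packet KPg.
-/

namespace Pool.Agent.Helper39.BL

open Pool.Agent.Helper29.BL
open WeierstrassCurve Height Height.AdmissibleAbsValues Polynomial
open scoped Polynomial.Bivariate

section pts

/-- Points which avoid finitely many values. -/
lemma exists_ptg (hx : XEQ) (hp : PEXg) (ha : ALGg) {K Ω : Type} [Field K] [CharZero K] [Field Ω]
    [DecidableEq Ω] [Algebra K Ω] [IsAlgClosed Ω] (W : Affine K) {a : Ω}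
    (hta : Transcendental K a) (u : (bcW Ω W).Point) (B : Set Ω) (hB : B.Finite) :
    ∃ y : (bcW Ω W).Point, y ≠ 0 ∧ y + y ≠ 0 ∧ y + u ≠ 0 ∧ y - u ≠ 0 ∧ xc (y + u) ∉ B ∧
      xc (y - u) ∉ B := by
  have hpt : ∀ c : K, ∃ P : (bcW Ω W).Point, P ≠ 0 ∧ xc P = a + algebraMap K Ω c := fun c =>
    hp K Ω W _ (fun h => hta (by simpa using h.sub (isAlgebraic_algebraMap (R := K) (A := Ω) c)))
  choose f hf0 hfx using hpt
  have hinj : Function.Injective f := by
    intro c c' h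
    have h1 := hfx c
    rw [h, hfx c'] at h1
    have h2 := add_left_cancel h1
    exact ((algebraMap K Ω).injective h2).symm
  have hinf : (Set.range f).Infinite := Set.infinite_range_of_injective hinj
  have hZ := fin_x hx (bcW Ω W) (insert 0 B) (hB.insert 0)
  have hZ1 : ((fun y : (bcW Ω W).Point => y + u) ⁻¹' {P | xc P ∈ insert 0 B}).Finite :=
    hZ.preimage (add_left_injective u).injOn
  have hZ2 : ((fun y : (bcW Ω W).Point => y - u) ⁻¹' {P | xc P ∈ insert 0 B}).Finite :=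
    hZ.preimage sub_left_injective.injOn
  obtain ⟨y, ⟨c, rfl⟩, hy⟩ := (hinf.sdiff (hZ1.union hZ2)).nonempty
  simp only [Set.mem_union, Set.mem_preimage, Set.mem_ofPred_eq, Set.mem_insert_iff,
    not_or] at hy
  obtain ⟨⟨h1, h2⟩, h3, h4⟩ := hy
  refine ⟨f c, hf0 c, fun h => ?_, fun h => h1 (by rw [h]; rfl), fun h => h3 (by rw [h]; rfl),
    h2, h4⟩
  have h5 := alg_down ((ha K Ω ⊥ W).2 (f c) h)
  rw [hfx c] at h5
  apply hta
  have h6 := h5.sub (isAlgebraic_algebraMap (R := K) (A := Ω) c)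
  simpa using h6

end pts

/-! ### The main statement -/

theorem kpg_of : GEN → PEXg → ALGg → T2 → TMAP → TDEG → XEQ → KPg := by
  intro hgen hpex halg ht2 htm htd hxeq K _ _ _ W₁ W₂ m Φ hΦ hirr hpos
  set G := GG W₁ W₂ m Φ with hG
  have hGB : BD (8 * m) G := GG_BD htd W₁ W₂ hΦ
  refine ⟨{F | ∃ l : K[X][Y] →ₗ[K] K, (∀ g, Φ ∣ g → l g = 0) ∧
    F = PL (8 * m) fun i j => l ((G.coeff j).coeff i)}, ?_, ?_, ?_⟩
  · rintro F ⟨l, -, rfl⟩
    exact PL_BD _ _
  · by_contra hcon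
    push Not at hcon
    -- all the coefficients of `G` are divisible by `Φ`
    have hdiv : ∀ i j, Φ ∣ (G.coeff j).coeff i := by
      intro i j
      by_cases hij : i < 8 * m + 1 ∧ j < 8 * m + 1
      · by_contra h
        obtain ⟨l, hl, hl'⟩ := exists_fun h
        have h1 := hcon _ ⟨l, hl, rfl⟩
        apply hl'
        rw [← PL_coeff_coeff (8 * m) (fun i j => l ((G.coeff j).coeff i)) hij.1 hij.2, h1]
        simp
      · have h0 : (G.coeff j).coeff i = 0 := by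
          rcases not_and_or.mp hij with h | h
          · exact coeff_eq_zero_of_natDegree_lt (lt_of_le_of_lt (hGB.2 j) (by omega))
          · rw [coeff_eq_zero_of_natDegree_lt (lt_of_le_of_lt hGB.1 (by omega))]
            simp
        rw [h0]
        exact dvd_zero _
    obtain ⟨Ω, iF, iA, a, b, hab⟩ := hgen K Φ hirr hpos
    classical
    have := hab.closed
    obtain ⟨u₁, hu₁, hxu₁⟩ := hpex K Ω W₁ a hab.transa
    obtain ⟨u₂, hu₂, hxu₂⟩ := hpex K Ω W₂ b hab.transb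
    have huu₁ : u₁ + u₁ ≠ 0 := fun h => hab.transa (by
      have := alg_down ((halg K Ω ⊥ W₁).2 u₁ h)
      rwa [hxu₁] at this)
    have huu₂ : u₂ + u₂ ≠ 0 := fun h => hab.transb (by
      have := alg_down ((halg K Ω ⊥ W₂).2 u₂ h)
      rwa [hxu₂] at this)
    set P : Polynomial (Polynomial Ω) := Φ.map (mapRingHom (algebraMap K Ω)) with hP
    have hPB : BD m P := BD_map _ hΦ
    -- the bad first coordinates
    have hΦ0 : Φ ≠ 0 := hirr.ne_zero
    obtain ⟨j₀, hj₀⟩ : ∃ j, Φ.coeff j ≠ 0 := by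
      by_contra h
      push Not at h
      exact hΦ0 (Polynomial.ext fun j => by simpa using h j)
    set q : Polynomial Ω := P.coeff j₀ with hq
    have hq0 : q ≠ 0 := by
      rw [hq, hP, coeff_map, coe_mapRingHom]
      exact (Polynomial.map_ne_zero_iff (algebraMap K Ω).injective).mpr hj₀
    have hne : ∀ t : Ω, t ∉ {t | q.IsRoot t} → P.map (evalRingHom t) ≠ 0 := by
      intro t ht h
      apply ht
      have := congrArg (fun r => coeff r j₀) h
      simpa [coeff_map, IsRoot, hq] using this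
    obtain ⟨y₁, hy₁, hyy₁, hyu₁, hyu₁', hb₁, hb₁'⟩ := exists_ptg hxeq hpex halg W₁ hab.transa u₁
      {t | q.IsRoot t} (Polynomial.finite_setOfPred_isRoot hq0)
    set r₁ := P.map (evalRingHom (xc (y₁ + u₁))) with hr₁
    set r₂ := P.map (evalRingHom (xc (y₁ - u₁))) with hr₂
    have hr₁0 : r₁ ≠ 0 := hne _ hb₁
    have hr₂0 : r₂ ≠ 0 := hne _ hb₁'
    obtain ⟨y₂, hy₂, hyy₂, hyu₂, hyu₂', hb₂, hb₂'⟩ := exists_ptg hxeq hpex halg W₂ hab.transa u₂
      ({t | r₁.IsRoot t} ∪ {t | r₂.IsRoot t})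
      ((Polynomial.finite_setOfPred_isRoot hr₁0).union (Polynomial.finite_setOfPred_isRoot hr₂0))
    have hev : ∀ s : ℤˣ × ℤˣ, ev P (kap ((y₁, y₂) + sg s (u₁, u₂))) ≠ 0 := by
      have hk : ∀ s : ℤˣ × ℤˣ, kap ((y₁, y₂) + sg s (u₁, u₂)) =
        (xc (y₁ + (s.1 : ℤ) • u₁), xc (y₂ + (s.2 : ℤ) • u₂)) := fun s => rfl
      have hvr : ∀ t t' : Ω, ev P (t, t') = (P.map (evalRingHom t)).eval t' := fun t t' =>
        (map_evalRingHom_eval t t' P).symm
      simp only [Set.mem_union, Set.mem_ofPred_eq, IsRoot, not_or] at hb₂ hb₂'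
      intro s
      rw [hk, hvr]
      obtain ⟨s₁, s₂⟩ := s
      rcases Int.units_eq_one_or s₁ with rfl | rfl <;> rcases Int.units_eq_one_or s₂ with rfl | rfl
      · simpa using hb₂.1
      · simpa [← sub_eq_add_neg] using hb₂'.1
      · simpa [← sub_eq_add_neg] using hb₂.2
      · simpa [← sub_eq_add_neg] using hb₂'.2
    obtain ⟨hU₁, hU₂, hT⟩ := ht2 Ω (bcW Ω W₁) (bcW Ω W₂) m P (y₁, y₂) (u₁, u₂) hPB ⟨hy₁, hy₂⟩
      ⟨hu₁, hu₂⟩ ⟨hyy₁, hyy₂⟩ ⟨huu₁, huu₂⟩ ⟨hyu₁, hyu₂⟩ ⟨hyu₁', hyu₂'⟩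
    have hTne : TT (bcW Ω W₁) (bcW Ω W₂) m P (xc u₁) (xc u₂) (xc y₁) (xc y₂) ≠ 0 := by
      rw [hT]
      exact mul_ne_zero (mul_ne_zero (pow_ne_zero _ hU₁) (pow_ne_zero _ hU₂))
        (Finset.prod_ne_zero_iff.mpr fun s _ => hev s)
    apply hTne
    -- the value is `0`
    set ψ := evH (algebraMap K Ω) a b with hψ
    have hψ0 : ∀ g : K[X][Y], Φ ∣ g → ψ g = 0 := fun g hg => (hab.ker g).mpr hg
    have hmap0 : G.map (mapRingHom ψ) = 0 := by
      ext j i
      rw [coeff_map, coe_mapRingHom, coeff_map, hψ0 _ (hdiv i j)]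
      simp
    have h1 := htm.2.2.1 _ _ ψ (W₁.map (cc K)) (W₂.map (cc K)) m (Φ.map (mapRingHom (cc K)))
      (C X) (Y : K[X][Y]) (xc y₁) (xc y₂)
    have h2 : Tr (W₁.map (cc K)) (W₂.map (cc K)) m (Φ.map (mapRingHom (cc K))) (C X)
      (Y : K[X][Y]) = G := rfl
    rw [h2, hmap0] at h1
    have hc : ψ.comp (cc K) = algebraMap K Ω := by
      ext r
      simp [hψ, evH, cc]
    have hX : ψ (C X) = a := by simp [hψ, evH]
    have hY : ψ Y = b := by simp [hψ, evH]
    rw [WeierstrassCurve.map_map, WeierstrassCurve.map_map, hc, hX, hY, Polynomial.map_map,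
      Polynomial.mapRingHom_comp, hc] at h1
    rw [hxu₁, hxu₂, hP]
    rw [← h1]
    simp [ev]
  · intro a b
    have hev : ev G (cc K a, cc K b) = Tr W₁ W₂ m Φ a b := GG_ev htm W₁ W₂ m Φ a b
    constructor
    · intro h
      by_contra hd
      obtain ⟨l, hl, hl'⟩ := exists_fun hd
      apply hl'
      rw [← hev, lin_sum l hGB]
      exact h _ ⟨l, hl, rfl⟩
    · rintro h F ⟨l, hl, rfl⟩
      rw [← lin_sum l hGB, hev]
      exact hl _ h

end Pool.Agent.Helper39.BL
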