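import Pool.Agent.Helper29.BL.GoalsC
import Pool.Agent.Helper29.BL.TDEG

/-!
Project BL, packet KP.
-/

namespace Pool.Agent.Helper39.BL

open Pool.Agent.Helper29.BL
open WeierstrassCurve Height Height.AdmissibleAbsValues Polynomial
open scoped Polynomial.Bivariate

/-! ### The polynomial with coefficients `l (g_ij)` -/

section alg

variable {R : Type} [CommRing R]

/-- the polynomial `Σ c_ij X^i Y^j` -/
noncomputable def PL (n : ℕ) (c : ℕ → ℕ → R) : R[X][Y] :=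
  ∑ j ∈ Finset.range (n + 1), C (∑ i ∈ Finset.range (n + 1), C (c i j) * X ^ i) * Y ^ j

lemma PL_coeff (n : ℕ) (c : ℕ → ℕ → R) (j : ℕ) :
    (PL n c).coeff j = if j < n + 1 then ∑ i ∈ Finset.range (n + 1), C (c i j) * X ^ i else 0 := by
  rw [PL, finsetSum_coeff]
  simp only [coeff_C_mul, coeff_X_pow, mul_ite, mul_one, mul_zero]
  rw [Finset.sum_ite_eq]
  simp

lemma PL_coeff_coeff (n : ℕ) (c : ℕ → ℕ → R) {i j : ℕ} (hi : i < n + 1) (hj : j < n + 1) :
    ((PL n c).coeff j).coeff i = c i j := by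
  rw [PL_coeff, if_pos hj, finsetSum_coeff]
  simp only [coeff_C_mul, coeff_X_pow, mul_ite, mul_one, mul_zero]
  rw [Finset.sum_ite_eq, if_pos (Finset.mem_range.mpr hi)]

lemma PL_BD (n : ℕ) (c : ℕ → ℕ → R) : BD n (PL n c) := by
  constructor
  · refine natDegree_sum_le_of_forall_le _ _ fun j hj => ?_
    exact (natDegree_C_mul_X_pow_le _ _).trans (Nat.lt_succ_iff.mp (Finset.mem_range.mp hj))
  · intro j
    rw [PL_coeff]
    split_ifs
    · refine natDegree_sum_le_of_forall_le _ _ fun i hi => ?_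
      exact (natDegree_C_mul_X_pow_le _ _).trans (Nat.lt_succ_iff.mp (Finset.mem_range.mp hi))
    · simp

lemma BD_map {S : Type} [CommRing S] (f : R →+* S) {k : ℕ} {F : R[X][Y]} (hF : BD k F) :
    BD k (F.map (mapRingHom f)) := by
  refine ⟨(natDegree_map_le).trans hF.1, fun j => ?_⟩
  rw [coeff_map, coe_mapRingHom]
  exact (natDegree_map_le).trans (hF.2 j)

end alg

/-! ### The translate with indeterminate parameters -/

section tr

variable {K : Type} [Field K]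

/-- `TT_m Φ (s, t, X, Y)` as a polynomial in `s, t` -/
noncomputable def GG (W₁ W₂ : Affine K) (m : ℕ) (Φ : K[X][Y]) : K[X][Y][X][Y] :=
  Tr (W₁.map (cc K)) (W₂.map (cc K)) m (Φ.map (mapRingHom (cc K))) (C X) (Y : K[X][Y])

lemma GG_BD (htd : TDEG) (W₁ W₂ : Affine K) {m : ℕ} {Φ : K[X][Y]} (hΦ : BD m Φ) :
    BD (8 * m) (GG W₁ W₂ m Φ) :=
  htd _ _ _ _ _ _ _ (BD_map _ hΦ)

lemma GG_ev (htm : TMAP) (W₁ W₂ : Affine K) (m : ℕ) (Φ : K[X][Y]) (a b : K) :
    ev (GG W₁ W₂ m Φ) (cc K a, cc K b) = Tr W₁ W₂ m Φ a b := by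
  rw [GG, htm.2.2.2, htm.2.1]
  rfl

lemma cc_smul (a : K) (g : K[X][Y]) : cc K a * g = a • g := by
  rw [Algebra.smul_def]
  rfl

lemma lin_sum (l : K[X][Y] →ₗ[K] K) {n : ℕ} {G : K[X][Y][X][Y]} (hG : BD n G) (a b : K) :
    l (ev G (cc K a, cc K b)) = ev (PL n fun i j => l ((G.coeff j).coeff i)) (a, b) := by
  rw [hG.eq_sum, (PL_BD n _).eq_sum, map_sum]
  refine Finset.sum_congr rfl fun i hi => ?_
  rw [map_sum]
  refine Finset.sum_congr rfl fun j hj => ?_
  rw [PL_coeff_coeff _ _ (Finset.mem_range.mp hi) (Finset.mem_range.mp hj)]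
  have e : (G.coeff j).coeff i * cc K a ^ i * cc K b ^ j =
      (a ^ i * b ^ j) • ((G.coeff j).coeff i) := by
    rw [← cc_smul, map_mul, map_pow, map_pow]
    ring
  rw [e, map_smul, smul_eq_mul]
  ring

lemma exists_fun {Φ g : K[X][Y]} (h : ¬ Φ ∣ g) :
    ∃ l : K[X][Y] →ₗ[K] K, (∀ g', Φ ∣ g' → l g' = 0) ∧ l g ≠ 0 := by
  have h1 : g ∉ (Ideal.span {Φ}).restrictScalars K := by
    simpa [Ideal.mem_span_singleton] using h
  obtain ⟨l, hl, hl'⟩ := Submodule.exists_le_ker_of_notMem h1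
  refine ⟨l, fun g' hg' => ?_, hl⟩
  exact hl' (by simpa [Ideal.mem_span_singleton] using hg')

end tr

/-! ### Choice of the points -/

section pts

lemma fin_x (hx : XEQ) {F : Type} [Field F] [DecidableEq F] (W : Affine F) (B : Set F)
    (hB : B.Finite) : {P : W.Point | xc P ∈ B}.Finite := by
  have h1 : ∀ c : F, {P : W.Point | xc P = c}.Finite := by
    intro c
    by_cases h : ∃ P₀ : W.Point, P₀ ≠ 0 ∧ xc P₀ = c
    · obtain ⟨P₀, h0, h0'⟩ := h
      refine (Set.toFinite ({0, P₀, -P₀} : Set W.Point)).subset fun P hP => ?_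
      by_cases hP0 : P = 0
      · simp [hP0]
      · rcases ((hx F W).1 P P₀ hP0 h0).mp (by rw [h0']; exact hP) with h2 | h2 <;> simp [h2]
    · refine (Set.toFinite ({0} : Set W.Point)).subset fun P hP => ?_
      by_contra hP0
      exact h ⟨P, hP0, hP⟩
  refine (hB.biUnion fun c _ => h1 c).subset fun P hP => ?_
  simp only [Set.mem_iUnion]
  exact ⟨xc P, hP, rfl⟩

lemma alg_down {K Ω : Type} [Field K] [Field Ω] [Algebra K Ω] {x : Ω}
    (h : IsAlgebraic (⊥ : IntermediateField K Ω) x) : IsAlgebraic K x := by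
  exact h.restrictScalars K

/-- Points which avoid finitely many values. -/
lemma exists_pt (hx : XEQ) (hp : PEX) (ha : ALG) {K Ω : Type} [Field K] [CharZero K] [Field Ω]
    [DecidableEq Ω] [Algebra K Ω] [IsAlgClosed Ω] (W : Affine K) [W.IsElliptic] {a : Ω}
    (hta : Transcendental K a) (u : (bcW Ω W).Point) (B : Set Ω) (hB : B.Finite) :
    ∃ y : (bcW Ω W).Point, y ≠ 0 ∧ y + y ≠ 0 ∧ y + u ≠ 0 ∧ y - u ≠ 0 ∧ xc (y + u) ∉ B ∧
      xc (y - u) ∉ B := by
  have hpt : ∀ c : K, ∃ P : (bcW Ω W).Point, P ≠ 0 ∧ xc P = a + algebraMap K Ω c := fun c =>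
    hp Ω (bcW Ω W) _
  choose f hf0 hfx using hpt
  have hinj : Function.Injective f := by
    intro c c' h
    have h1 := hfx c
    rw [h, hfx c'] at h1
    have h2 := add_left_cancel h1
    exact ((algebraMap K Ω).injective h2).symm
  have hinf : (Set.range f).Infinite := Set.infinite_range_of_injective hinj
  have hZ := fin_x hx (bcW Ω W) (insert 0 B) (hB.insert 0)
  have hZ1 : ((fun y : (bcW Ω W).Point => y + u) ⁻¹' {P | xc P ∈ insert 0 B}).Finite :=
    hZ.preimage (add_left_injective u).injOn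
  have hZ2 : ((fun y : (bcW Ω W).Point => y - u) ⁻¹' {P | xc P ∈ insert 0 B}).Finite :=
    hZ.preimage sub_left_injective.injOn
  obtain ⟨y, ⟨c, rfl⟩, hy⟩ := (hinf.sdiff (hZ1.union hZ2)).nonempty
  simp only [Set.mem_union, Set.mem_preimage, Set.mem_ofPred_eq, Set.mem_insert_iff,
    not_or] at hy
  obtain ⟨⟨h1, h2⟩, h3, h4⟩ := hy
  refine ⟨f c, hf0 c, fun h => ?_, fun h => h1 (by rw [h]; rfl), fun h => h3 (by rw [h]; rfl),
    h2, h4⟩
  have h5 := alg_down ((ha K Ω ⊥ W).2 (f c) h)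
  rw [hfx c] at h5
  apply hta
  have h6 := h5.sub (isAlgebraic_algebraMap (R := K) (A := Ω) c)
  simpa using h6

end pts

/-! ### The main statement -/

theorem kp_of : GEN → PEX → T2 → TMAP → TDEG → XEQ → ALG → KP := by
  intro hgen hpex ht2 htm htd hxeq halg K _ _ _ W₁ W₂ _ _ m Φ hΦ hirr hpos
  set G := GG W₁ W₂ m Φ with hG
  have hGB : BD (8 * m) G := GG_BD htd W₁ W₂ hΦ
  refine ⟨{F | ∃ l : K[X][Y] →ₗ[K] K, (∀ g, Φ ∣ g → l g = 0) ∧
    F = PL (8 * m) fun i j => l ((G.coeff j).coeff i)}, ?_, ?_, ?_⟩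
  · rintro F ⟨l, -, rfl⟩
    exact PL_BD _ _
  · by_contra hcon
    push Not at hcon
    -- all the coefficients of `G` are divisible by `Φ`
    have hdiv : ∀ i j, Φ ∣ (G.coeff j).coeff i := by
      intro i j
      by_cases hij : i < 8 * m + 1 ∧ j < 8 * m + 1
      · by_contra h
        obtain ⟨l, hl, hl'⟩ := exists_fun h
        have h1 := hcon _ ⟨l, hl, rfl⟩
        apply hl'
        rw [← PL_coeff_coeff (8 * m) (fun i j => l ((G.coeff j).coeff i)) hij.1 hij.2, h1]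
        simp
      · have h0 : (G.coeff j).coeff i = 0 := by
          rcases not_and_or.mp hij with h | h
          · exact coeff_eq_zero_of_natDegree_lt (lt_of_le_of_lt (hGB.2 j) (by omega))
          · rw [coeff_eq_zero_of_natDegree_lt (lt_of_le_of_lt hGB.1 (by omega))]
            simp
        rw [h0]
        exact dvd_zero _
    obtain ⟨Ω, iF, iA, a, b, hab⟩ := hgen K Φ hirr hpos
    classical
    have := hab.closed
    obtain ⟨u₁, hu₁, hxu₁⟩ := hpex Ω (bcW Ω W₁) a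
    obtain ⟨u₂, hu₂, hxu₂⟩ := hpex Ω (bcW Ω W₂) b
    have huu₁ : u₁ + u₁ ≠ 0 := fun h => hab.transa (by
      have := alg_down ((halg K Ω ⊥ W₁).2 u₁ h)
      rwa [hxu₁] at this)
    have huu₂ : u₂ + u₂ ≠ 0 := fun h => hab.transb (by
      have := alg_down ((halg K Ω ⊥ W₂).2 u₂ h)
      rwa [hxu₂] at this)
    set P : Polynomial (Polynomial Ω) := Φ.map (mapRingHom (algebraMap K Ω)) with hP
    have hPB : BD m P := BD_map _ hΦ
    -- the bad first coordinates
    have hΦ0 : Φ ≠ 0 := hirr.ne_zero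
    obtain ⟨j₀, hj₀⟩ : ∃ j, Φ.coeff j ≠ 0 := by
      by_contra h
      push Not at h
      exact hΦ0 (Polynomial.ext fun j => by simpa using h j)
    set q : Polynomial Ω := P.coeff j₀ with hq
    have hq0 : q ≠ 0 := by
      rw [hq, hP, coeff_map, coe_mapRingHom]
      exact (Polynomial.map_ne_zero_iff (algebraMap K Ω).injective).mpr hj₀
    have hne : ∀ t : Ω, t ∉ {t | q.IsRoot t} → P.map (evalRingHom t) ≠ 0 := by
      intro t ht h
      apply ht
      have := congrArg (fun r => coeff r j₀) h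
      simpa [coeff_map, IsRoot, hq] using this
    obtain ⟨y₁, hy₁, hyy₁, hyu₁, hyu₁', hb₁, hb₁'⟩ := exists_pt hxeq hpex halg W₁ hab.transa u₁
      {t | q.IsRoot t} (Polynomial.finite_setOfPred_isRoot hq0)
    set r₁ := P.map (evalRingHom (xc (y₁ + u₁))) with hr₁
    set r₂ := P.map (evalRingHom (xc (y₁ - u₁))) with hr₂
    have hr₁0 : r₁ ≠ 0 := hne _ hb₁
    have hr₂0 : r₂ ≠ 0 := hne _ hb₁'
    obtain ⟨y₂, hy₂, hyy₂, hyu₂, hyu₂', hb₂, hb₂'⟩ := exists_pt hxeq hpex halg W₂ hab.transa u₂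
      ({t | r₁.IsRoot t} ∪ {t | r₂.IsRoot t})
      ((Polynomial.finite_setOfPred_isRoot hr₁0).union (Polynomial.finite_setOfPred_isRoot hr₂0))
    have hev : ∀ s : ℤˣ × ℤˣ, ev P (kap ((y₁, y₂) + sg s (u₁, u₂))) ≠ 0 := by
      have hk : ∀ s : ℤˣ × ℤˣ, kap ((y₁, y₂) + sg s (u₁, u₂)) =
        (xc (y₁ + (s.1 : ℤ) • u₁), xc (y₂ + (s.2 : ℤ) • u₂)) := fun s => rfl
      have hvr : ∀ t t' : Ω, ev P (t, t') = (P.map (evalRingHom t)).eval t' := fun t t' =>
        (map_evalRingHom_eval t t' P).symm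
      simp only [Set.mem_union, Set.mem_ofPred_eq, IsRoot, not_or] at hb₂ hb₂'
      intro s
      rw [hk, hvr]
      obtain ⟨s₁, s₂⟩ := s
      rcases Int.units_eq_one_or s₁ with rfl | rfl <;> rcases Int.units_eq_one_or s₂ with rfl | rfl
      · simpa using hb₂.1
      · simpa [← sub_eq_add_neg] using hb₂'.1
      · simpa [← sub_eq_add_neg] using hb₂.2
      · simpa [← sub_eq_add_neg] using hb₂'.2
    obtain ⟨hU₁, hU₂, hT⟩ := ht2 Ω (bcW Ω W₁) (bcW Ω W₂) m P (y₁, y₂) (u₁, u₂) hPB ⟨hy₁, hy₂⟩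
      ⟨hu₁, hu₂⟩ ⟨hyy₁, hyy₂⟩ ⟨huu₁, huu₂⟩ ⟨hyu₁, hyu₂⟩ ⟨hyu₁', hyu₂'⟩
    have hTne : TT (bcW Ω W₁) (bcW Ω W₂) m P (xc u₁) (xc u₂) (xc y₁) (xc y₂) ≠ 0 := by
      rw [hT]
      exact mul_ne_zero (mul_ne_zero (pow_ne_zero _ hU₁) (pow_ne_zero _ hU₂))
        (Finset.prod_ne_zero_iff.mpr fun s _ => hev s)
    apply hTne
    -- the value is `0`
    set ψ := evH (algebraMap K Ω) a b with hψ
    have hψ0 : ∀ g : K[X][Y], Φ ∣ g → ψ g = 0 := fun g hg => (hab.ker g).mpr hg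
    have hmap0 : G.map (mapRingHom ψ) = 0 := by
      ext j i
      rw [coeff_map, coe_mapRingHom, coeff_map, hψ0 _ (hdiv i j)]
      simp
    have h1 := htm.2.2.1 _ _ ψ (W₁.map (cc K)) (W₂.map (cc K)) m (Φ.map (mapRingHom (cc K)))
      (C X) (Y : K[X][Y]) (xc y₁) (xc y₂)
    have h2 : Tr (W₁.map (cc K)) (W₂.map (cc K)) m (Φ.map (mapRingHom (cc K))) (C X)
      (Y : K[X][Y]) = G := rfl
    rw [h2, hmap0] at h1
    have hc : ψ.comp (cc K) = algebraMap K Ω := by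
      ext r
      simp [hψ, evH, cc]
    have hX : ψ (C X) = a := by simp [hψ, evH]
    have hY : ψ Y = b := by simp [hψ, evH]
    rw [WeierstrassCurve.map_map, WeierstrassCurve.map_map, hc, hX, hY, Polynomial.map_map,
      Polynomial.mapRingHom_comp, hc] at h1
    rw [hxu₁, hxu₂, hP]
    rw [← h1]
    simp [ev]
  · intro a b
    have hev : ev G (cc K a, cc K b) = Tr W₁ W₂ m Φ a b := GG_ev htm W₁ W₂ m Φ a b
    constructor
    · intro h
      by_contra hd
      obtain ⟨l, hl, hl'⟩ := exists_fun hd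
      apply hl'
      rw [← hev, lin_sum l hGB]
      exact h _ ⟨l, hl, rfl⟩
    · rintro h F ⟨l, hl, rfl⟩
      rw [← lin_sum l hGB, hev]
      exact hl _ h

end Pool.Agent.Helper39.BL
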